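import Mathlib
import Pool.Agent.W625.NC.Fin2
import Pool.Agent.W625.NC.Low
import Pool.Agent.H785R2.ABC.A345
import Pool.Agent.H785R2.ABC.A12

/-!
# The strong n-conjecture for almost all tuples: the exact threshold is `M = 1 / n`
-/

set_option autoImplicit false

namespace Pool.Agent.Results.MP_7ecdd4_nt.AlmostAllThreshold

open Finset Pool.Agent.W625.NC

/-- `x` is an admissible tuple: non-zero pairwise coprime integers with sum zero. -/
def Admissible {n : ℕ} (x : Fin n → ℤ) : Prop :=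
  (∀ i, x i ≠ 0) ∧ (∀ i j, i ≠ j → Int.gcd (x i) (x j) = 1) ∧ ∑ i, x i = 0

/-- The inequality `max |x_j| ≤ rad (x_1 ⋯ x_n) ^ M`. -/
def Holds {n : ℕ} (M : ℝ) (x : Fin n → ℤ) : Prop :=
  ∀ j, |((x j : ℤ) : ℝ)| ≤ (((∏ i, x i).natAbs.primeFactors.prod id : ℕ) : ℝ) ^ M

/-- The number of admissible `n`-tuples with all entries at most `X` in absolute value. -/
noncomputable def total (n X : ℕ) : ℕ :=
  {x : Fin n → ℤ | Admissible x ∧ ∀ i, |x i| ≤ (X : ℤ)}.ncard

/-- The number of those among them which violate the inequality with exponent `M`. -/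
noncomputable def bad (n : ℕ) (M : ℝ) (X : ℕ) : ℕ :=
  {x : Fin n → ℤ | Admissible x ∧ (∀ i, |x i| ≤ (X : ℤ)) ∧ ¬ Holds M x}.ncard

theorem total_eq (n X : ℕ) : total n X = {x : Fin n → ℤ | Adm n X x}.ncard := by
  unfold total
  congr 1
  ext x
  simp only [Set.mem_ofPred_eq, Admissible, Adm]
  tauto

theorem bad_eq (n : ℕ) (M : ℝ) (X : ℕ) : bad n M X = (ExcSet n M X).ncard := by
  unfold bad ExcSet
  congr 1
  ext x
  simp only [Set.mem_ofPred_eq, Admissible, Adm, Holds, not_forall, not_le,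
    Pool.Agent.H785R2.ABC.rad, Finset.prod, id, Multiset.map_id']
  tauto

theorem adm_finite (n X : ℕ) : {x : Fin n → ℤ | Adm n X x}.Finite := by
  apply Set.Finite.subset (Finset.finite_toSet (Fintype.piFinset fun _ : Fin n => Icc (-(X : ℤ)) X))
  intro x hx
  rw [mem_coe, Fintype.mem_piFinset]
  intro i
  exact mem_Icc.2 (abs_le.1 (hx.2.2.2 i))

theorem bad_le_total (n : ℕ) (M : ℝ) (X : ℕ) : bad n M X ≤ total n X := by
  rw [bad_eq, total_eq]
  exact Set.ncard_le_ncard (fun x hx => hx.1) (adm_finite n X)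

theorem all_bad {n : ℕ} (hn : 2 ≤ n) {M : ℝ} (hM : M ≤ 1 / n) (x : Fin n → ℤ) (hx : Admissible x)
    (h2 : ∃ i, 2 ≤ |x i|) : ¬ Holds M x := by
  classical
  obtain ⟨p, _, hp⟩ := exists_max_image (univ : Finset (Fin n)) (fun i => (x i).natAbs)
    ⟨⟨0, by omega⟩, mem_univ _⟩
  obtain ⟨i2, hi2⟩ := h2
  set H := (x p).natAbs with hH
  have hH2 : 2 ≤ H := by
    have h1 := hp i2 (mem_univ _)
    rw [Int.abs_eq_natAbs] at hi2
    omega
  obtain ⟨q, hq⟩ : ∃ q : Fin n, q ≠ p := by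
    by_cases h0 : (p : ℕ) = 0
    · exact ⟨⟨1, by omega⟩, fun e => by rw [← e] at h0; simp at h0⟩
    · exact ⟨⟨0, by omega⟩, fun e => h0 (by rw [← e])⟩
  have hqH : (x q).natAbs < H := by
    rcases lt_or_eq_of_le (hp q (mem_univ _)) with h | h
    · exact h
    · exfalso
      have h1 := hx.2.1 q p hq
      unfold Int.gcd at h1
      rw [h, Nat.gcd_self] at h1
      omega
  intro hhold
  have h3 := hhold p
  set R : ℕ := (∏ i, x i).natAbs.primeFactors.prod id with hR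
  have hprod : (∏ i, x i).natAbs = ∏ i, (x i).natAbs := map_prod Int.natAbsHom x univ
  have hpos : 0 < (∏ i, x i).natAbs := by
    rw [hprod]
    exact prod_pos fun i _ => Int.natAbs_pos.2 (hx.1 i)
  have hR1 : R ≤ (∏ i, x i).natAbs := Nat.le_of_dvd hpos (Nat.prod_primeFactors_dvd _)
  have hR0 : 1 ≤ R := Nat.one_le_iff_ne_zero.2 (by
    rw [hR, Finset.prod_ne_zero_iff]
    intro a ha
    exact (Nat.prime_of_mem_primeFactors ha).ne_zero)
  have hlt : R < H ^ n := by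
    refine lt_of_le_of_lt hR1 ?_
    rw [hprod, ← mul_prod_erase univ _ (mem_univ q)]
    have h5 : ∏ i ∈ univ.erase q, (x i).natAbs ≤ H ^ (n - 1) := by
      calc ∏ i ∈ univ.erase q, (x i).natAbs ≤ ∏ _i ∈ univ.erase q, H :=
            prod_le_prod' fun i _ => hp i (mem_univ _)
        _ = H ^ (n - 1) := by
            rw [prod_const, card_erase_of_mem (mem_univ q), card_univ, Fintype.card_fin]
    have h6 : H ^ n = H * H ^ (n - 1) := by
      rw [← pow_succ']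
      congr 1
      omega
    rw [h6]
    calc (x q).natAbs * ∏ i ∈ univ.erase q, (x i).natAbs ≤ (x q).natAbs * H ^ (n - 1) :=
          Nat.mul_le_mul_left _ h5
      _ < H * H ^ (n - 1) := Nat.mul_lt_mul_of_pos_right hqH (by positivity)
  have hn0 : (0 : ℝ) < n := by exact_mod_cast (by omega : 0 < n)
  have h7 : (R : ℝ) ^ M ≤ (R : ℝ) ^ ((1 : ℝ) / n) :=
    Real.rpow_le_rpow_of_exponent_le (by exact_mod_cast hR0) hM
  have h8 : (R : ℝ) ^ ((1 : ℝ) / n) < ((H : ℝ) ^ n) ^ ((1 : ℝ) / n) := by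
    apply Real.rpow_lt_rpow (Nat.cast_nonneg _) _ (by positivity)
    exact_mod_cast hlt
  have h9 : ((H : ℝ) ^ n) ^ ((1 : ℝ) / n) = H := by
    rw [← Real.rpow_natCast, ← Real.rpow_mul (Nat.cast_nonneg _), mul_one_div_cancel hn0.ne',
      Real.rpow_one]
  have h10 : |((x p : ℤ) : ℝ)| = (H : ℝ) := by
    rw [hH, Nat.cast_natAbs]; push_cast; rfl
  rw [h10] at h3
  linarith

/-- The strong n-conjecture for almost all tuples. -/
theorem result (n : ℕ) (hn : 3 ≤ n) :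
    (∀ M : ℝ, M ≤ 1 / n → ∀ x : Fin n → ℤ, Admissible x → (∃ i, 2 ≤ |x i|) → ¬ Holds M x) ∧
    (∀ M : ℝ, 1 / n < M → ∀ δ : ℝ, δ < ((n : ℝ) - 1) * (1 - 1 / (n * M)) → ∃ C : ℝ,
      ∀ X : ℕ, 1 ≤ X → (bad n M X : ℝ) ≤ C * (X : ℝ) ^ (-δ) * total n X) := by
  refine ⟨fun M hM x hx h2 => all_bad (by omega) hM x hx h2, ?_⟩
  intro M hM δ hδ
  have hn0 : (0 : ℝ) < n := by exact_mod_cast (by omega : 0 < n)
  have hM0 : 0 < M := lt_trans (by positivity) hM
  have a4 : Pool.Agent.H785R2.ABC.StmtA4 :=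
    Pool.Agent.H785R2.ABC.stmtA4_of (Pool.Agent.H785R2.ABC.stmtA3_of Pool.Agent.H785R2.ABC.stmtA2)
  obtain ⟨C, hC, hbad⟩ := Opt.count_of_box (by omega) (Opt.box_triv a4 (n := n) (by omega) hM0)
    (((n : ℝ) - 1) * (1 - 1 / (n * M)) - δ) (by linarith)
  obtain ⟨c, hc, X₀, hlow⟩ := low n hn
  set C' : ℝ := C / c + ((X₀ : ℝ) + 1) ^ |δ| with hC'
  refine ⟨C', ?_⟩
  intro X hX
  have hXp : (0 : ℝ) < X := by exact_mod_cast hX
  have hX1 : (1 : ℝ) ≤ X := by exact_mod_cast hX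
  have hXd : 0 < (X : ℝ) ^ (-δ) := Real.rpow_pos_of_pos hXp _
  have hA : 0 ≤ C / c := by positivity
  have hB : 0 ≤ ((X₀ : ℝ) + 1) ^ |δ| := by positivity
  by_cases hXX : X₀ ≤ X
  · have h1 := hbad X hX
    have h2 := hlow X hXX
    rw [← bad_eq] at h1
    rw [← total_eq] at h2
    have e1 : ((n : ℝ) - 1) / (n * M) + (((n : ℝ) - 1) * (1 - 1 / (n * M)) - δ) =
        -δ + ((n : ℝ) - 1) := by
      field_simp
      ring
    rw [e1, Real.rpow_add hXp] at h1
    calc (bad n M X : ℝ) ≤ C * ((X : ℝ) ^ (-δ) * (X : ℝ) ^ ((n : ℝ) - 1)) := h1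
      _ = C / c * (X : ℝ) ^ (-δ) * (c * (X : ℝ) ^ ((n : ℝ) - 1)) := by
          field_simp
      _ ≤ C / c * (X : ℝ) ^ (-δ) * total n X := mul_le_mul_of_nonneg_left h2 (by positivity)
      _ ≤ C' * (X : ℝ) ^ (-δ) * total n X := by
          apply mul_le_mul_of_nonneg_right _ (Nat.cast_nonneg _)
          apply mul_le_mul_of_nonneg_right _ hXd.le
          rw [hC']; linarith
  · have h1 : (bad n M X : ℝ) ≤ total n X := by exact_mod_cast bad_le_total n M X
    have hXle : (X : ℝ) ≤ (X₀ : ℝ) + 1 := by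
      have : (X : ℝ) ≤ X₀ := by exact_mod_cast (by omega : X ≤ X₀)
      linarith
    have h3 : 1 ≤ C' * (X : ℝ) ^ (-δ) := by
      have h4 : (X : ℝ) ^ δ ≤ C' := by
        calc (X : ℝ) ^ δ ≤ (X : ℝ) ^ |δ| := Real.rpow_le_rpow_of_exponent_le hX1 (le_abs_self δ)
          _ ≤ ((X₀ : ℝ) + 1) ^ |δ| := Real.rpow_le_rpow hXp.le hXle (abs_nonneg δ)
          _ ≤ C' := by rw [hC']; linarith
      calc (1 : ℝ) = (X : ℝ) ^ δ * (X : ℝ) ^ (-δ) := by
            rw [← Real.rpow_add hXp]; simp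
        _ ≤ _ := mul_le_mul_of_nonneg_right h4 hXd.le
    calc (bad n M X : ℝ) ≤ 1 * (total n X : ℝ) := by linarith
      _ ≤ _ := mul_le_mul_of_nonneg_right h3 (Nat.cast_nonneg _)

end Pool.Agent.Results.MP_7ecdd4_nt.AlmostAllThreshold
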