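import Mathlib
import Pool.Agent.W625.NC.Main2

/-!
# Few exceptions to the strong n-conjecture, `n ≥ 4`, exponents `M ≥ 10 / (3 n - 2)`
-/

set_option autoImplicit false

namespace Pool.Agent.Results.MP_7ecdd4_nt.FewExceptions

open Finset Pool.Agent.W625.NC

/-- `x` is an admissible tuple: non-zero pairwise coprime integers with sum zero. -/
def Admissible {n : ℕ} (x : Fin n → ℤ) : Prop :=
  (∀ i, x i ≠ 0) ∧ (∀ i j, i ≠ j → Int.gcd (x i) (x j) = 1) ∧ ∑ i, x i = 0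

/-- The inequality `max |x_j| ≤ rad (x_1 ⋯ x_n) ^ M`. -/
def Holds {n : ℕ} (M : ℝ) (x : Fin n → ℤ) : Prop :=
  ∀ j, |((x j : ℤ) : ℝ)| ≤ (((∏ i, x i).natAbs.primeFactors.prod id : ℕ) : ℝ) ^ M

/-- The number of admissible `n`-tuples with all entries at most `X` in absolute value which
violate the inequality with exponent `M`. -/
noncomputable def exceptions (n : ℕ) (M : ℝ) (X : ℕ) : ℕ :=
  {x : Fin n → ℤ | Admissible x ∧ (∀ i, |x i| ≤ (X : ℤ)) ∧ ¬ Holds M x}.ncard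

theorem exceptions_eq (n : ℕ) (M : ℝ) (X : ℕ) : exceptions n M X = (ExcSet n M X).ncard := by
  unfold exceptions ExcSet
  congr 1
  ext x
  simp only [Set.mem_ofPred_eq, Admissible, Adm, Holds, not_forall, not_le,
    Pool.Agent.H785R2.ABC.rad, Finset.prod, id, Multiset.map_id']
  tauto

/-- Few exceptions. -/
theorem result (n : ℕ) (hn : 4 ≤ n) (M : ℝ) (hM : 10 / (3 * (n : ℝ) - 2) ≤ M) (ε : ℝ)
    (hε : 0 < ε) : ∃ C : ℝ, ∀ X : ℕ, 1 ≤ X → (exceptions n M X : ℝ) ≤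
      C * (X : ℝ) ^ ((3 * (n : ℝ) - 5) / ((3 * (n : ℝ) - 2) * M) + ε) := by
  obtain ⟨C, _, h⟩ := wide hn hM ε hε
  exact ⟨C, fun X hX => by rw [exceptions_eq]; exact h X hX⟩

end Pool.Agent.Results.MP_7ecdd4_nt.FewExceptions
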